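import Mathlib

set_option autoImplicit false

namespace Pool.Agent.Results.MP_3821a3_co.Counter

open MvPolynomial

/-- Edge density of the hypergraph on `Fin n` whose edges are `E 0, …, E (m-1)`: the maximum of
`|E(X)| / |X|` over vertex sets `X` (the empty set contributes `0`). -/
noncomputable def ed {n m : ℕ} (E : Fin m → Finset (Fin n)) : ℝ :=
  ⨆ X : Finset (Fin n), ((Finset.univ.filter (fun e => E e ⊆ X)).card : ℝ) / (X.card : ℝ)

/-- The hypergraph polynomial with coefficients `a`. -/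
noncomputable def hpoly {F : Type} [Field F] {n m : ℕ} (E : Fin m → Finset (Fin n))
    (a : Fin m → Fin n → F) : MvPolynomial (Fin n) F :=
  ∏ e, ∑ i ∈ E e, C (a e i) * X i

/-- The Alon-Tarsi number: least value of (largest exponent + 1) over the monomials of top total
degree with nonzero coefficient. -/
noncomputable def AT {F : Type} [Field F] {n : ℕ} (p : MvPolynomial (Fin n) F) : ℕ :=
  sInf {k : ℕ | ∃ α ∈ p.support, (α.sum fun _ t => t) = p.totalDegree ∧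
    k = Finset.univ.sup (fun i => α i) + 1}

def E0 : Fin 4 → Finset (Fin 5) := ![{0, 1, 2, 4}, {1, 2, 3}, {0, 1, 3, 4}, {0, 2, 3, 4}]

def a0 : Fin 4 → Fin 5 → ZMod 3 :=
  ![![1, 1, 1, 0, -1], ![0, 1, -1, 1, 0], ![1, -1, 0, 1, -1], ![1, 0, -1, -1, -1]]

lemma ed_le : ed E0 ≤ 1 := by
  refine ciSup_le fun S => ?_
  have : ∀ S : Finset (Fin 5), (Finset.univ.filter (fun e => E0 e ⊆ S)).card ≤ S.card := by
    decide +kernel
  exact div_le_one_of_le₀ (by exact_mod_cast this S) (Nat.cast_nonneg _)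

lemma hpoly_eq : hpoly E0 a0 = (X 0 + X 1 + X 2 - X 4) * ((X 1 - X 2 + X 3) *
    ((X 0 - X 1 + X 3 - X 4) * (X 0 - X 2 - X 3 - X 4))) := by
  simp [hpoly, Fin.prod_univ_four, E0, a0]
  ring

lemma three : (3 : MvPolynomial (Fin 5) (ZMod 3)) = 0 := by
  exact_mod_cast CharP.cast_eq_zero (MvPolynomial (Fin 5) (ZMod 3)) 3

lemma hpoly_mem : hpoly E0 a0 ∈ Ideal.span ((fun s => monomial s (1 : ZMod 3)) ''
    Set.range (fun i : Fin 5 => Finsupp.single i 3)) := by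
  have hX : ∀ i : Fin 5, (X i : MvPolynomial (Fin 5) (ZMod 3)) ^ 3 ∈
      Ideal.span ((fun s => monomial s (1 : ZMod 3)) ''
        Set.range (fun i : Fin 5 => Finsupp.single i 3)) := fun i =>
    Ideal.subset_span ⟨_, ⟨i, rfl⟩, (X_pow_eq_monomial).symm⟩
  have h1 : ((X 0 + X 1 + X 2 - X 4 : MvPolynomial (Fin 5) (ZMod 3))) ^ 3 =
      X 0 ^ 3 + X 1 ^ 3 + X 2 ^ 3 - X 4 ^ 3 := by
    rw [sub_pow_char, add_pow_char, add_pow_char]
  have h2 : ((X 1 - X 2 + X 3 : MvPolynomial (Fin 5) (ZMod 3))) ^ 3 =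
      X 1 ^ 3 - X 2 ^ 3 + X 3 ^ 3 := by
    rw [add_pow_char, sub_pow_char]
  have h3 : hpoly E0 a0 = (X 1 - X 2 + X 3) * (X 0 + X 1 + X 2 - X 4) ^ 3 -
      (X 0 + X 1 + X 2 - X 4) * (X 1 - X 2 + X 3) ^ 3 := by
    rw [hpoly_eq]
    linear_combination (X 0 + X 1 + X 2 - X 4) * (X 1 - X 2 + X 3) *
      (-(X 1) * (X 0 - X 2 - X 3 - X 4) - X 2 * (X 0 + 2 * X 1 + X 3 - X 4)) * three
  rw [h3, h1, h2]
  exact Ideal.sub_mem _
    (Ideal.mul_mem_left _ _ (Ideal.sub_mem _ (Ideal.add_mem _ (Ideal.add_mem _ (hX 0) (hX 1))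
      (hX 2)) (hX 4)))
    (Ideal.mul_mem_left _ _ (Ideal.add_mem _ (Ideal.sub_mem _ (hX 1) (hX 2)) (hX 3)))

lemma hpoly_ne : hpoly E0 a0 ≠ 0 := by
  intro h
  have := congrArg (eval₂ (algebraMap (ZMod 3) (Polynomial (ZMod 3)))
    ![Polynomial.X, 0, 0, 1, 0]) h
  rw [hpoly_eq] at this
  simp only [eval₂_mul, eval₂_sub, eval₂_add, eval₂_X, eval₂_zero] at this
  have h2 := congrArg (fun q => Polynomial.coeff q 1) this
  simp [mul_add, mul_sub, Polynomial.coeff_X, Polynomial.coeff_one] at h2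

lemma AT_ge : 4 ≤ AT (hpoly E0 a0) := by
  refine le_csInf ?_ ?_
  · obtain ⟨α, hα, h⟩ := Finset.exists_mem_eq_sup (hpoly E0 a0).support
      (support_nonempty.2 hpoly_ne) (fun s => s.sum fun _ t => t)
    exact ⟨_, α, hα, h.symm, rfl⟩
  · rintro k ⟨α, hα, -, rfl⟩
    obtain ⟨s, ⟨i, rfl⟩, hs⟩ := mem_ideal_span_monomial_image.1 hpoly_mem α hα
    have h1 : 3 ≤ α i := by simpa using hs i
    have h2 : α i ≤ Finset.univ.sup (fun i => α i) :=
      Finset.le_sup (f := fun i => α i) (Finset.mem_univ i)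
    omega

/-- The bound `AT ≤ 2⌈ed⌉ + 1` fails for fully unbalanced hypergraph polynomials, even for
hypergraphs without repeated edges. -/
theorem result : ¬ ∀ (F : Type) [Field F] (n m : ℕ) (E : Fin m → Finset (Fin n))
    (a : Fin m → Fin n → F), Function.Injective E → (∀ e, 2 ≤ (E e).card) →
      (∀ e, ∀ i ∈ E e, a e i ≠ 0) → (∀ e, ∃ i ∈ E e, ∃ j ∈ E e, a e i ≠ a e j) →
      AT (hpoly E a) ≤ 2 * ⌈ed E⌉₊ + 1 := by
  intro h
  have h1 := h (ZMod 3) 5 4 E0 a0 (by decide) (by decide) (by decide) (by decide)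
  have h2 : ⌈ed E0⌉₊ ≤ 1 := Nat.ceil_le.2 (by simpa using ed_le)
  have h3 := AT_ge
  omega

end Pool.Agent.Results.MP_3821a3_co.Counter
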